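import Pool.Agent.H27.TM.TargetsL
import Pool.Agent.H31.SW.Tools

/-!
# The correlation integral
-/

set_option autoImplicit false

open MeasureTheory Set Filter Complex
open scoped ENNReal Topology

namespace Pool.Agent.H54.TMB

open Pool.Agent.H29.DW (dg Rl lf)
open Pool.Agent.H31.SW (EE itg FF HD DB DS ind EE_sub)
open Pool.Agent.H27.TM

/-! ### General part -/

section Gen

variable {V : Type} [NormedAddCommGroup V] [NormedSpace ℝ V] [FiniteDimensional ℝ V]
  [MeasurableSpace V] [BorelSpace V] (μ : Measure V) [μ.IsAddHaarMeasure]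

/-- continuity of the correlation -/
private theorem corr_cont (i : V → ℂ) (hi : Continuous i) (H H' : ℂ → ℂ) (hH : Continuous H)
    (hH' : Continuous H') (R : ℝ) (hs : ∀ x : V, R < ‖x‖ → H' (i x) = 0) :
    Continuous fun u : ℂ => ∫ x : V, H (i x + u) * (starRingEnd ℂ) (H' (i x)) ∂μ := by
  haveI : ProperSpace V := FiniteDimensional.proper ℝ V
  have h1 : ∀ u : ℂ, ∫ x : V, H (i x + u) * (starRingEnd ℂ) (H' (i x)) ∂μ =
      ∫ x in Metric.closedBall (0 : V) R, H (i x + u) * (starRingEnd ℂ) (H' (i x)) ∂μ := by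
    intro u
    symm
    refine setIntegral_eq_integral_of_forall_compl_eq_zero fun x hx => ?_
    have : R < ‖x‖ := by simpa using hx
    rw [hs x this]
    simp
  simp only [h1]
  refine continuous_parametric_integral_of_continuous
    (f := fun (u : ℂ) (x : V) => H (i x + u) * (starRingEnd ℂ) (H' (i x))) ?_
    (isCompact_closedBall _ _)
  refine Continuous.mul ?_ ?_
  · exact hH.comp ((hi.comp continuous_snd).add continuous_fst)
  · exact Complex.continuous_conj.comp (hH'.comp (hi.comp continuous_snd))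

/-- the integral of the correlation -/
private theorem corr_int (h h' : V → ℂ) (hc : Continuous h) (hc' : Continuous h') (R : ℝ)
    (hs : ∀ x : V, R < ‖x‖ → h x = 0) (hs' : ∀ x : V, R < ‖x‖ → h' x = 0) :
    ∫ u, ∫ t, h (t + u) * (starRingEnd ℂ) (h' t) ∂μ ∂μ =
      (∫ t, h t ∂μ) * (starRingEnd ℂ) (∫ t, h' t ∂μ) := by
  haveI : ProperSpace V := FiniteDimensional.proper ℝ V
  have hint : Integrable (Function.uncurry fun u t => h (t + u) * (starRingEnd ℂ) (h' t))
      (μ.prod μ) := by
    refine Continuous.integrable_of_hasCompactSupport ?_ ?_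
    · refine Continuous.mul ?_ ?_
      · exact hc.comp (continuous_snd.add continuous_fst)
      · exact Complex.continuous_conj.comp (hc'.comp continuous_snd)
    · refine HasCompactSupport.intro ((isCompact_closedBall (0 : V) (2 * R)).prod
        (isCompact_closedBall (0 : V) R)) fun p hp => ?_
      by_cases h1 : R < ‖p.2‖
      · show h (p.2 + p.1) * (starRingEnd ℂ) (h' p.2) = 0
        rw [hs' _ h1]
        simp
      · by_cases h2 : R < ‖p.2 + p.1‖
        · show h (p.2 + p.1) * (starRingEnd ℂ) (h' p.2) = 0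
          rw [hs _ h2]
          simp
        · exfalso
          apply hp
          push_neg at h1 h2
          refine ⟨?_, by simpa using h1⟩
          have h3 : ‖p.1‖ ≤ ‖p.2 + p.1‖ + ‖p.2‖ := by
            calc ‖p.1‖ = ‖(p.2 + p.1) - p.2‖ := by rw [add_sub_cancel_left]
              _ ≤ _ := norm_sub_le _ _
          simp only [Metric.mem_closedBall, dist_zero_right]
          linarith
  rw [integral_integral_swap hint]
  have h1 : ∀ t, ∫ u, h (t + u) * (starRingEnd ℂ) (h' t) ∂μ =
      (∫ u, h u ∂μ) * (starRingEnd ℂ) (h' t) := by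
    intro t
    rw [integral_mul_const, integral_add_left_eq_self (fun u => h u)]
  simp only [h1]
  rw [integral_const_mul, integral_conj]

end Gen

/-! ### The function -/

private theorem EE_cont : Continuous EE := by
  unfold EE
  fun_prop

private theorem DS_cont {G ρ : ℝ} {t₀ : ℂ} {Q : ℂ → ℂ} (h : DS 1 G t₀ ρ Q) : Continuous Q := by
  obtain ⟨-, F₁, F₂, h1, -⟩ := h
  exact continuous_iff_continuousAt.2 fun z => (h1 z (mem_univ z)).continuousAt

private theorem DS_zero {G ρ : ℝ} {t₀ : ℂ} {Q : ℂ → ℂ} (h : DS 1 G t₀ ρ Q) (z : ℂ)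
    (hz : ρ < ‖z - t₀‖) : Q z = 0 := by
  have h1 := h.1 z (mem_univ z)
  rw [ind, if_neg (not_le.2 hz)] at h1
  exact norm_le_zero_iff.1 h1

private theorem H_cont (hLO : M_LO) {α G : ℝ} {c t₀ : ℂ} {Q : ℂ → ℂ} (hα : 0 < α)
    (hα2 : α ≤ 1 / 10000) (ht : 1 / 3 ≤ ‖t₀‖) (h : DS 1 G t₀ (1 / 2500) Q) :
    Continuous fun t => EE (c * lo α t) * Q t := by
  refine continuous_iff_continuousAt.2 fun t => ?_
  by_cases h1 : 1 / 2500 < ‖t - t₀‖
  · have h2 : ∀ᶠ z in 𝓝 t, EE (c * lo α z) * Q z = 0 := by
      have h3 : ∀ᶠ z in 𝓝 t, 1 / 2500 < ‖z - t₀‖ :=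
        (isOpen_lt continuous_const (continuous_id.sub continuous_const).norm).mem_nhds h1
      filter_upwards [h3] with z hz
      rw [DS_zero h z hz, mul_zero]
    have h4 : (fun z => EE (c * lo α z) * Q z) =ᶠ[𝓝 t] fun _ => 0 := h2
    exact (continuousAt_const).congr h4.symm
  · push_neg at h1
    have h2 : 1 / 4 ≤ ‖t‖ := by
      have h3 : ‖t₀‖ ≤ ‖t‖ + ‖t - t₀‖ := by
        calc ‖t₀‖ = ‖t - (t - t₀)‖ := by rw [sub_sub_cancel]
          _ ≤ _ := norm_sub_le _ _
      linarith
    have h3 : ContinuousAt (lo α) t := ((hLO.1 α t hα hα2 h2).1).continuousAt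
    have h4 : ContinuousAt (fun t => EE (c * lo α t)) t :=
      ContinuousAt.comp (f := fun t => c * lo α t) (g := EE) EE_cont.continuousAt
        (continuousAt_const.mul h3)
    exact h4.mul (DS_cont h).continuousAt

theorem pf_CF (hLO : M_LO) : M_CF := by
  intro r α c c' Q G hα hα2 hAm
  obtain ⟨t₀, ht0, ht1, ht2, hDS⟩ := hAm
  set H : ℂ → ℂ := fun t => EE (c * lo α t) * Q t with hH
  set H' : ℂ → ℂ := fun t => EE (c' * lo α t) * Q t with hH'
  have hHc : Continuous H := H_cont hLO hα hα2 ht1 hDS
  have hHc' : Continuous H' := H_cont hLO hα hα2 ht1 hDS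
  have hzero : ∀ z : ℂ, 3 < ‖z‖ → Q z = 0 := by
    intro z hz
    refine DS_zero hDS z ?_
    have h3 : ‖z‖ ≤ ‖z - t₀‖ + ‖t₀‖ := by
      calc ‖z‖ = ‖(z - t₀) + t₀‖ := by rw [sub_add_cancel]
        _ ≤ _ := norm_add_le _ _
    linarith
  have hCr : ∀ u : ℂ, Cr r α c c' Q u =
      itg r (fun t => H (t + u) * (starRingEnd ℂ) (H' t)) := by
    intro u
    unfold Cr
    congr 1
    funext t
    rw [hH, hH', EE_sub]
    simp only [map_mul]
    ring
  refine ⟨?_, ?_, ?_⟩
  · have h1 : Cr r α c c' Q = fun u => itg r (fun t => H (t + u) * (starRingEnd ℂ) (H' t)) :=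
      funext hCr
    rw [h1]
    unfold itg
    cases r
    · simp only [Bool.false_eq_true, if_false]
      refine continuous_const.mul ?_
      refine corr_cont volume (fun z : ℂ => z) continuous_id H H' hHc hHc' 3 fun x hx => ?_
      rw [hH']
      simp only
      rw [hzero x hx, mul_zero]
    · simp only [if_true]
      refine corr_cont volume (fun z : ℝ => (z : ℂ)) Complex.continuous_ofReal H H' hHc hHc' 3
        fun x hx => ?_
      rw [hH']
      simp only
      rw [hzero x (by simpa using hx), mul_zero]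
  · intro u hu
    unfold Cr
    have h1 : ∀ t : ℂ, Q (t + u) * (starRingEnd ℂ) (Q t) *
        EE (c * lo α (t + u) - c' * lo α t) = 0 := by
      intro t
      by_cases h2 : 1 / 2500 < ‖t - t₀‖
      · rw [DS_zero hDS t h2]
        simp
      · have h3 : 1 / 2500 < ‖t + u - t₀‖ := by
          push_neg at h2
          have h4 : ‖u‖ ≤ ‖t + u - t₀‖ + ‖t - t₀‖ := by
            calc ‖u‖ = ‖(t + u - t₀) - (t - t₀)‖ := by congr 1; ring
              _ ≤ _ := norm_sub_le _ _
          linarith
        rw [DS_zero hDS _ h3]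
        simp
    simp only [h1, itg]
    cases r <;> simp
  · intro m
    set h : ℂ → ℂ := fun t => EE (m * t) * H t with hh
    set h' : ℂ → ℂ := fun t => EE (m * t) * H' t with hh'
    have hc : Continuous h := (EE_cont.comp (continuous_const.mul continuous_id)).mul hHc
    have hc' : Continuous h' := (EE_cont.comp (continuous_const.mul continuous_id)).mul hHc'
    have hs : ∀ z : ℂ, 3 < ‖z‖ → h z = 0 := fun z hz => by
      rw [hh, hH]
      simp only
      rw [hzero z hz]
      ring
    have hs' : ∀ z : ℂ, 3 < ‖z‖ → h' z = 0 := fun z hz => by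
      rw [hh', hH']
      simp only
      rw [hzero z hz]
      ring
    have e1 : ∀ u t : ℂ, EE (m * u) * (H (t + u) * (starRingEnd ℂ) (H' t)) =
        h (t + u) * (starRingEnd ℂ) (h' t) := by
      intro u t
      have : m * u = m * (t + u) - m * t := by ring
      rw [this, EE_sub, hh, hh']
      simp only [map_mul]
      ring
    have hEl : ∀ c : ℂ, El r α c Q m = itg r (fun t => EE (m * t) * (EE (c * lo α t) * Q t)) := by
      intro c
      unfold El
      congr 1
      funext t
      rw [Pool.Agent.H31.SW.EE_add]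
      ring
    rw [hEl, hEl, FF]
    simp only [hCr]
    unfold itg
    cases r
    · simp only [Bool.false_eq_true, if_false]
      have h1 := corr_int (volume : Measure ℂ) h h' hc hc' 3 hs hs'
      have h2 : ∀ w : ℂ, EE (m * w) * (2 * ∫ t : ℂ, H (t + w) * (starRingEnd ℂ) (H' t)) =
          2 * ∫ t : ℂ, h (t + w) * (starRingEnd ℂ) (h' t) := by
        intro w
        rw [mul_left_comm, ← integral_const_mul]
        simp only [e1]
      simp only [h2]
      rw [integral_const_mul, h1, map_mul]
      have h3 : (starRingEnd ℂ) (2 : ℂ) = 2 := by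
        rw [show (2 : ℂ) = ((2 : ℝ) : ℂ) by norm_num, Complex.conj_ofReal]
      rw [h3]
      ring
    · simp only [if_true]
      have h1 := corr_int (volume : Measure ℝ) (fun x : ℝ => h x) (fun x : ℝ => h' x)
        (hc.comp Complex.continuous_ofReal) (hc'.comp Complex.continuous_ofReal) 3
        (fun x hx => hs x (by simpa using hx)) (fun x hx => hs' x (by simpa using hx))
      have h2 : ∀ w : ℝ, EE (m * w) * (∫ t : ℝ, H (t + w) * (starRingEnd ℂ) (H' t)) =
          ∫ t : ℝ, h ((t + w : ℝ) : ℂ) * (starRingEnd ℂ) (h' t) := by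
        intro w
        rw [← integral_const_mul]
        push_cast
        simp only [e1]
      simp only [h2]
      exact h1.symm

end Pool.Agent.H54.TMB
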